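import Mathlib
import Pool.Agent.W695.KH.Defs
import Pool.Agent.Y506.FF.Stm

/-!
# Products of few ridge functions: statements
-/

set_option autoImplicit false

namespace Pool.Agent.Y506.RG

open MeasureTheory Set Filter Topology
open scoped ENNReal InnerProductSpace
open Pool.Agent.W695.KH (Eu EU EV VV Sm Pot Uu)
open Pool.Agent.Y506.FF (Pair mat pw prj)

/-! ### one-dimensional densities -/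

/-- normalised positive continuous log-concave density on the line -/
structure ND (f : ℝ → ℝ) : Prop where
  pos : ∀ s, 0 < f s
  cont : Continuous f
  lc : ∀ x y t : ℝ, 0 < t → t < 1 → f x ^ (1 - t) * f y ^ t ≤ f ((1 - t) * x + t * y)
  int0 : Integrable f
  int2 : Integrable fun s => s ^ 2 * f s
  mass : ∫ s, f s = 1
  mean : ∫ s, s * f s = 0
  var : ∫ s, s ^ 2 * f s = 1

/-- absolute bounds, with constant `C` -/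
structure OB (C : ℝ) (f : ℝ → ℝ) : Prop where
  one_le : 1 ≤ C
  tail : ∀ s, f s ≤ C * Real.exp (-|s| / C)
  zero : 1 / C ≤ f 0
  right : ∀ t, 0 ≤ t → ∫ s in Ioi t, f s ≤ C * f t
  left : ∀ t, t ≤ 0 → ∫ s in Iic t, f s ≤ C * f t
  mr : 1 / C ≤ ∫ s in Ioi 0, f s
  ml : 1 / C ≤ ∫ s in Iic 0, f s
  m4 : ∫ s, s ^ 4 * f s ≤ C
  m1 : 1 / C ≤ ∫ s, |s| * f s

def S_ONE : Prop := ∃ C : ℝ, 1 ≤ C ∧ ∀ f : ℝ → ℝ, ND f → OB C f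

/-- `min(F, 1 - F) / f` -/
noncomputable def kf (f : ℝ → ℝ) (t : ℝ) : ℝ := min (∫ s in Iic t, f s) (∫ s in Ioi t, f s) / f t

/-- incomplete tilted moments -/
noncomputable def N0 (f : ℝ → ℝ) (x a : ℝ) : ℝ := ∫ s in Iic x, f s * Real.exp (a * s)
noncomputable def N1 (f : ℝ → ℝ) (x a : ℝ) : ℝ := ∫ s in Iic x, s * f s * Real.exp (a * s)
noncomputable def Z0 (f : ℝ → ℝ) (a : ℝ) : ℝ := ∫ s, f s * Real.exp (a * s)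
noncomputable def Z1 (f : ℝ → ℝ) (a : ℝ) : ℝ := ∫ s, s * f s * Real.exp (a * s)

/-- derivative of the transport in the tilt parameter -/
noncomputable def Da (f : ℝ → ℝ) (x a : ℝ) : ℝ :=
  (Z1 f a * N0 f x a / Z0 f a - N1 f x a) / (f x * Real.exp (a * x))

/-- transport of `f` to its tilts -/
structure TR (f : ℝ → ℝ) (l : ℝ) (T : ℝ → ℝ → ℝ) : Prop where
  eq : ∀ t a, |a| < l → N0 f (T t a) a = Z0 f a * N0 f t 0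
  der : ∀ t a, |a| < l → HasFDerivAt (fun w : ℝ × ℝ => T w.1 w.2)
    ((Z0 f a * f t / (f (T t a) * Real.exp (a * T t a))) • ContinuousLinearMap.fst ℝ ℝ ℝ +
      (Da f (T t a) a) • ContinuousLinearMap.snd ℝ ℝ ℝ) (t, a)

def S_T1 : Prop := ∀ C : ℝ, ∃ l : ℝ, 0 < l ∧ ∀ f : ℝ → ℝ, ND f → OB C f →
  (∀ a, |a| < l → Integrable fun s => (1 + s ^ 4) * f s * Real.exp (a * s)) ∧
  ∃ T : ℝ → ℝ → ℝ, TR f l T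

/-- the properties of the transport which are used -/
structure TM (f : ℝ → ℝ) (l C : ℝ) (T p k : ℝ → ℝ → ℝ) : Prop where
  der : ∀ t a, |a| < l → HasFDerivAt (fun w : ℝ × ℝ => T w.1 w.2)
    ((p t a) • ContinuousLinearMap.fst ℝ ℝ ℝ + (p t a * k t a) • ContinuousLinearMap.snd ℝ ℝ ℝ) (t, a)
  ppos : ∀ t a, |a| < l → 0 < p t a
  kpos : ∀ t a, |a| < l → 0 < k t a
  dens : ∀ t a, |a| < l → f t * Real.exp (-(a * T t a)) ≤ f (T t a) * p t a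
  disp : ∀ t a, |a| < l → |T t a - t| ≤ C * |a| * (1 + |t|)
  disp' : ∀ t a, |a| < l → |T t a - t| ≤ C * |a| * (1 + |T t a|)
  klow : ∀ t a, |a| < l → kf f t ≤ C * k t a

def S_T2 : Prop := ∀ C : ℝ, ∀ l0 : ℝ, 0 < l0 → ∃ l C' : ℝ, 0 < l ∧ 1 ≤ C' ∧
  ∀ f : ℝ → ℝ, ND f → OB C f →
  (∀ a, |a| < l0 → Integrable fun s => (1 + s ^ 4) * f s * Real.exp (a * s)) →
  ∀ T : ℝ → ℝ → ℝ, TR f l0 T → ∃ p k : ℝ → ℝ → ℝ, TM f l C' T p k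

/-- logarithmic moment of `kf` -/
def S_LOGR : Prop := ∀ C C1 : ℝ, 1 ≤ C1 → ∃ C4 : ℝ, 0 < C4 ∧ ∀ f : ℝ → ℝ, ND f → OB C f →
  ∀ P : ℝ → ℝ≥0∞, Measurable P → (∀ u, P u ≤ ENNReal.ofReal (C1 * Real.exp (-|u| / C1))) →
  ∀ g : ℝ, 0 < g → g ≤ 1 →
  (∀ u, P u ≤ ENNReal.ofReal (C1 * f (g * u) * Real.exp (C1 * |u|))) →
  ∫⁻ u, ENNReal.ofReal (max 0 (-Real.log (kf f (g * u)))) * P u ≤ ENNReal.ofReal C4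

/-- exponential decay -/
def S_EXPD : Prop := ∀ c C : ℝ, 0 < c → 0 < C → ∃ C' : ℝ, 1 ≤ C' ∧ ∀ P : ℝ → ℝ≥0∞, Measurable P →
  (∀ x y t : ℝ, 0 < t → t < 1 → P x ^ (1 - t) * P y ^ t ≤ P ((1 - t) * x + t * y)) →
  ENNReal.ofReal c ≤ P 0 → (∀ u, P u ≤ ENNReal.ofReal C) → ∫⁻ u, P u ≤ 1 →
  ∀ u, P u ≤ ENNReal.ofReal (C' * Real.exp (-|u| / C'))

/-- growth of the other factor -/
def S_PSI : Prop := ∀ c C r C0 : ℝ, 0 < c → 0 < C → 0 < r → 1 ≤ C0 → ∃ C' : ℝ, 1 ≤ C' ∧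
  ∀ (F : ℝ → ℝ) (ψ : ℝ → ℝ≥0∞), (∀ s, 0 < F s) → (∀ s, F s ≤ C0) → 1 / C0 ≤ F 0 →
  (∀ x y t : ℝ, 0 < t → t < 1 → ψ x ^ (1 - t) * ψ y ^ t ≤ ψ ((1 - t) * x + t * y)) →
  (∀ u, |u| ≤ r → ENNReal.ofReal c ≤ ENNReal.ofReal (F u) * ψ u) →
  (∀ u, ENNReal.ofReal (F u) * ψ u ≤ ENNReal.ofReal C) →
  ∀ u, ψ u ≤ ENNReal.ofReal (C' * Real.exp (C' * |u|))

/-! ### low dimension -/

/-- log-concave isotropic densities with fourth moments at most `K` -/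
structure ILK {d : ℕ} (K : ℝ) (g : Eu (Fin d) → ℝ≥0∞) : Prop where
  meas : Measurable g
  lc : ∀ x y, ∀ t : ℝ, 0 < t → t < 1 → g x ^ (1 - t) * g y ^ t ≤ g ((1 - t) • x + t • y)
  mass : ∫⁻ z, g z = 1
  m1 : ∀ w, ∫⁻ z, ENNReal.ofReal ⟪w, z⟫_ℝ * g z = ∫⁻ z, ENNReal.ofReal (-⟪w, z⟫_ℝ) * g z
  m2 : ∀ w, ∫⁻ z, ENNReal.ofReal (⟪w, z⟫_ℝ ^ 2) * g z = ENNReal.ofReal (‖w‖ ^ 2)
  m4 : ∀ w, ∫⁻ z, ENNReal.ofReal (⟪w, z⟫_ℝ ^ 4) * g z ≤ ENNReal.ofReal (K * ‖w‖ ^ 4)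

def S_LDK : Prop := ∀ (K : ℝ) (d : ℕ), 1 ≤ K → ∃ c C r : ℝ, 0 < c ∧ 0 < C ∧ 0 < r ∧
  ∀ g : Eu (Fin d) → ℝ≥0∞, ILK K g →
  (∀ z, ‖z‖ ≤ r → ENNReal.ofReal c ≤ g z) ∧ (∀ z, g z ≤ ENNReal.ofReal C) ∧
  ∀ z, ENNReal.ofReal (‖z‖ ^ 4) * g z ≤ ENNReal.ofReal C

/-- splitting off one direction -/
def S_SPL2 : Prop := ∀ (ι : Type) [Fintype ι] (n d : ℕ) (L : Eu (Fin (n + 1)) →ₗᵢ[ℝ] Eu ι)
  (M : Eu (Fin d) →ₗᵢ[ℝ] Eu ι), Pair L M → ∀ θ : Eu (Fin (n + 1)), ‖θ‖ = 1 →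
  ∃ (L' : Eu (Fin n) →ₗᵢ[ℝ] Eu ι) (M' : Eu (Fin (d + 1)) →ₗᵢ[ℝ] Eu ι) (e : Eu (Fin (d + 1))),
    Pair L' M' ∧ ‖e‖ = 1 ∧ M' e = L θ ∧ (∀ z, ∃ z', M' z' = M z) ∧
    ∀ (φ : ℝ → ℝ≥0∞) (G : Eu ι → ℝ≥0∞), Measurable φ → Measurable G →
    ∫⁻ x, φ ⟪θ, x⟫_ℝ * G (L x) = ∫⁻ u : ℝ, φ u * ∫⁻ x, G (L' x + M' (u • e))

/-! ### product densities -/

section

variable {ι : Type} [Fintype ι]

/-- product density -/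
noncomputable def rr (f : ι → ℝ → ℝ) (s : Eu ι) : ℝ≥0∞ := ∏ i, ENNReal.ofReal (f i (s i))

/-- the thickening map -/
noncomputable def PhT {d : ℕ} (T : ι → ℝ → ℝ → ℝ) (M : Eu (Fin d) →ₗᵢ[ℝ] Eu ι) (w : Eu ι) : Eu ι :=
  WithLp.toLp 2 fun i => T i ((w - prj M w) i) (prj M w i)

/-- the weight -/
noncomputable def Yr {n d : ℕ} (f : ι → ℝ → ℝ) (L : Eu (Fin n) →ₗᵢ[ℝ] Eu ι)
    (M : Eu (Fin d) →ₗᵢ[ℝ] Eu ι) (x : Eu (Fin n)) : ℝ :=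
  ∑ i, pw M i * (1 + |L x i| + max 0 (-Real.log (kf (f i) (L x i))))

end

def S_MOMR : Prop := ∀ C : ℝ, ∃ K : ℝ, 1 ≤ K ∧ ∀ (ι : Type) [Fintype ι] (f : ι → ℝ → ℝ),
  (∀ i, ND (f i)) → (∀ i, OB C (f i)) →
  (∫⁻ s : Eu ι, rr f s = 1) ∧
  (∀ a : Eu ι, ∫⁻ s, ENNReal.ofReal ⟪a, s⟫_ℝ * rr f s =
    ∫⁻ s, ENNReal.ofReal (-⟪a, s⟫_ℝ) * rr f s) ∧
  (∀ a : Eu ι, ∫⁻ s, ENNReal.ofReal (⟪a, s⟫_ℝ ^ 2) * rr f s = ENNReal.ofReal (‖a‖ ^ 2)) ∧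
  (∀ a : Eu ι, ∫⁻ s, ENNReal.ofReal (⟪a, s⟫_ℝ ^ 4) * rr f s ≤
    ENNReal.ofReal (K * ‖a‖ ^ 4)) ∧
  ∀ i : ι, ∫⁻ s : Eu ι, ENNReal.ofReal ((1 + |s i|) ^ 2) * rr f s ≤ 4

def S_VARR : Prop := ∀ C : ℝ, ∃ K : ℝ, 1 ≤ K ∧ ∀ (ι : Type) [Fintype ι] (f : ι → ℝ → ℝ),
  (∀ i, ND (f i)) → (∀ i, OB C (f i)) → ∀ (h : Eu ι → ℝ) (l : ℝ), ContDiff ℝ 1 h →
  (∀ s, |h s| ≤ 1) → 0 ≤ l → (∀ s, ‖fderiv ℝ h s‖ ≤ l) →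
  ∃ m : ℝ, |m| ≤ 1 ∧ ∫⁻ s, ENNReal.ofReal ((h s - m) ^ 2) * rr f s ≤ ENNReal.ofReal (K * l ^ 2)

/-! ### thickening -/

def S_JACR : Prop := ∀ (ι : Type) [Fintype ι] [DecidableEq ι] (d : ℕ) (l C : ℝ)
  (f : ι → ℝ → ℝ) (T p k : ι → ℝ → ℝ → ℝ), (∀ i, TM (f i) l C (T i) (p i) (k i)) →
  ∀ (M : Eu (Fin d) →ₗᵢ[ℝ] Eu ι) (W : Set (Eu ι)), MeasurableSet W →
  (∀ w ∈ W, ∀ i, |prj M w i| < l) →
  ∀ F : Eu ι → ℝ≥0∞, ∫⁻ w in W, ENNReal.ofReal |(∏ i, p i ((w - prj M w) i) (prj M w i)) *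
    ((mat M).transpose * Matrix.diagonal (fun i => k i ((w - prj M w) i) (prj M w i)) *
      mat M).det| * F (PhT T M w) = ∫⁻ s in PhT T M '' W, F s

def S_THR : Prop := ∀ (d : ℕ) (l C : ℝ), 0 < l → 1 ≤ C → ∃ a K : ℝ, 0 < a ∧ 1 ≤ K ∧
  ∀ (ι : Type) [Fintype ι] (n : ℕ) (f : ι → ℝ → ℝ), (∀ i, ND (f i)) →
  (∀ i, ∃ T p k : ℝ → ℝ → ℝ, TM (f i) l C T p k) →
  ∀ (L : Eu (Fin n) →ₗᵢ[ℝ] Eu ι) (M : Eu (Fin d) →ₗᵢ[ℝ] Eu ι), Pair L M →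
  ∀ B : Set (Eu (Fin n)), MeasurableSet B → ∀ S : Set (Eu ι), MeasurableSet S →
  (∀ s : Eu ι, (∃ x ∈ B, ‖s - L x‖ ^ 2 ≤ K * ∑ i, pw M i * (1 + |s i|) ^ 2) → s ∈ S) →
  ENNReal.ofReal a * ∫⁻ x in B, ENNReal.ofReal (Real.exp (-Yr f L M x)) * rr f (L x) ≤
    ∫⁻ s in S, rr f s

/-! ### potentials, Minkowski content for general measures -/

def S_POTR : Prop := ∀ (ι : Type) [Fintype ι] (n : ℕ) (L : Eu (Fin n) →ₗᵢ[ℝ] Eu ι)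
  (V V' : ι → ℝ → ℝ) (A c : ℝ), 0 < A → (∀ i s, HasDerivAt (V i) (V' i s) s) →
  (∀ i, Monotone (V' i)) → (∀ i s t, |V' i s - V' i t| ≤ A * |s - t|) →
  Integrable (fun x : Eu (Fin n) => (1 + ‖x‖ ^ 2) * Real.exp (-(∑ i, V i (L x i) + c))) →
  ∃ b : Eu (Fin n) → Eu (Fin n), Pot (fun x => ∑ i, V i (L x i) + c) b A

def S_MINKM : Prop := ∀ (κ : Type) [Fintype κ] (μ : Measure (Eu κ)) [IsProbabilityMeasure μ]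
  (B : ℝ), 0 < B → (∀ (f : Eu κ → ℝ) (L M : ℝ), Sm f L M → (∀ x, |f x| ≤ 1 / 2) →
    1 / 5 < (∫ x, f x ^ 2 ∂μ) - (∫ x, f x ∂μ) ^ 2 →
    (∫ x, f x ^ 2 ∂μ) - (∫ x, f x ∂μ) ^ 2 ≤ B * ∫ x, ‖fderiv ℝ f x‖ ∂μ) →
  ∀ S : Set (Eu κ), μ S = 1 / 2 → μ S * (1 - μ S) ≤ ENNReal.ofReal B *
    liminf (fun ε : ℝ => (μ (Metric.thickening ε S) - μ S) / ENNReal.ofReal ε) (𝓝[>] 0)

/-! ### general weights -/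

/-- mean with weight `w` -/
noncomputable def EW {n : ℕ} (w v : Eu (Fin n) → ℝ) : ℝ := (∫ x, v x * w x) / ∫ x, w x

/-- variance with weight `w` -/
noncomputable def VW {n : ℕ} (w v : Eu (Fin n) → ℝ) : ℝ := EW w (fun x => v x ^ 2) - EW w v ^ 2

/-- the inequality for all linear images -/
def Star {n : ℕ} (c : ℝ) (w : Eu (Fin n) → ℝ) : Prop :=
  ∀ (k : ℕ) (T : Eu (Fin n) →ₗ[ℝ] Eu (Fin k)) (s : ℝ), 0 < s →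
  (∀ θ : Eu (Fin k), ‖θ‖ = 1 → VW w (fun x => ⟪T x, θ⟫_ℝ) ≤ s) →
  ∀ (f : Eu (Fin k) → ℝ) (L M : ℝ), Sm f L M → (∀ x, |f x| ≤ 1 / 2) →
  1 / 5 < VW w (fun x => f (T x)) →
  VW w (fun x => f (T x)) ≤ c * Real.sqrt s * EW w fun x => ‖fderiv ℝ f (T x)‖

/-- limits -/
def S_LIMW : Prop := ∀ (n : ℕ) (c : ℝ) (w : Eu (Fin n) → ℝ) (W : ℕ → Eu (Fin n) → ℝ), 0 ≤ c →
  Integrable (fun x => (1 + ‖x‖ ^ 2) * w x) → 0 < ∫ x, w x →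
  (∀ j, Integrable (fun x => (1 + ‖x‖ ^ 2) * W j x)) →
  Tendsto (fun j => ∫ x, (1 + ‖x‖ ^ 2) * |W j x - w x|) atTop (𝓝 0) →
  (∀ᶠ j in atTop, Star c (W j)) → Star c w

/-- log-concave functions on the line -/
structure LC1 (h : ℝ → ℝ) : Prop where
  nonneg : ∀ s, 0 ≤ h s
  meas : Measurable h
  lc : ∀ x y t : ℝ, 0 < t → t < 1 → h x ^ (1 - t) * h y ^ t ≤ h ((1 - t) * x + t * y)

/-- smooth positive log-concave functions with all exponential moments -/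
structure GD (h : ℝ → ℝ) : Prop where
  pos : ∀ s, 0 < h s
  lc : ∀ x y t : ℝ, 0 < t → t < 1 → h x ^ (1 - t) * h y ^ t ≤ h ((1 - t) * x + t * y)
  pot : ∃ (V' : ℝ → ℝ) (A : ℝ), 0 < A ∧ (∀ s, HasDerivAt (fun s => -Real.log (h s)) (V' s) s) ∧
    Monotone V' ∧ ∀ s t, |V' s - V' t| ≤ A * |s - t|
  exps : ∀ a : ℝ, Integrable fun s => (1 + s ^ 2) * h s * Real.exp (a * s)

/-- Gaussian regularisation of a function supported in `[-R, R]` -/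
def S_REG : Prop := ∀ (h : ℝ → ℝ) (R : ℝ), LC1 h → 0 < R → (∀ s, R < |s| → h s = 0) →
  0 < ∫ s, h s → ∃ (H : ℕ → ℝ → ℝ) (K : ℝ), 0 < K ∧ (∀ j, GD (H j)) ∧
  (∀ j s, H j s ≤ K * Real.exp (-(max 0 (|s| - R)) ^ 2 / 2)) ∧
  ∃ E : Set ℝ, E.Finite ∧ ∀ s, s ∉ E → Tendsto (fun j => H j s) atTop (𝓝 (h s))

/-- the tilt -/
def S_TILT : Prop := ∀ (ι : Type) [Fintype ι] (n : ℕ) (ell : Eu (Fin n) →ₗ[ℝ] Eu ι)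
  (h : ι → ℝ → ℝ), (∀ i, GD (h i)) → ∃ (a : ι → ℝ) (x0 : Eu (Fin n)),
  (∀ x, ∑ i, a i * ell x i = 0) ∧
  ∀ i, ∫ s, s * (h i s * Real.exp (a i * s)) = ell x0 i * ∫ s, h i s * Real.exp (a i * s)

/-- normalisation of one factor -/
def S_NORM : Prop := ∀ (h : ℝ → ℝ), GD h → ∀ a m : ℝ,
  ∫ s, s * (h s * Real.exp (a * s)) = m * ∫ s, h s * Real.exp (a * s) →
  ∃ (σ z : ℝ) (f : ℝ → ℝ), 0 < σ ∧ 0 < z ∧ ND f ∧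
    (∀ s, h s * Real.exp (a * s) = z * f ((s - m) / σ)) ∧
    ∃ (V' : ℝ → ℝ) (A : ℝ), 0 < A ∧ (∀ s, HasDerivAt (fun s => -Real.log (f s)) (V' s) s) ∧
    Monotone V' ∧ ∀ s t, |V' s - V' t| ≤ A * |s - t|

/-- from smooth weights to general ones -/
def S_APX : Prop := ∀ (N n : ℕ) (c : ℝ) (ell : Eu (Fin n) →ₗ[ℝ] Eu (Fin N)), 0 ≤ c →
  (∀ x, ell x = 0 → x = 0) → (∀ i, ∃ x, ell x i ≠ 0) →
  (∀ H : Fin N → ℝ → ℝ, (∀ i, GD (H i)) → Star c fun x => ∏ i, H i (ell x i)) →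
  ∀ h : Fin N → ℝ → ℝ, (∀ i, LC1 (h i)) →
  Integrable (fun x => (1 + ‖x‖ ^ 2) * ∏ i, h i (ell x i)) → 0 < ∫ x, ∏ i, h i (ell x i) →
  Star c fun x => ∏ i, h i (ell x i)

end Pool.Agent.Y506.RG
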