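import Pool.Agent.Y506.RG.Fnl
import Pool.Agent.Y849.RG.One
import Pool.Agent.Y901.RG.T1
import Pool.Agent.Y401.RG.T2
import Pool.Agent.Y252.RG.Logr
import Pool.Agent.Y950.RG.Expd
import Pool.Agent.Z864.RG.LDK
import Pool.Agent.Y429.RG.SPL2
import Pool.Agent.Y210.RG.Mom
import Pool.Agent.Y445.RG.Varr
import Pool.Agent.Y809.RG.Jac
import Pool.Agent.Y487.RG.Thr
import Pool.Agent.Y287.RG.Potr
import Pool.Agent.Y429.RG.MINKM
import Pool.Agent.Y510.RG.Limw
import Pool.Agent.Y333.RG.Reg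
import Pool.Agent.Y497.RG.Tilt
import Pool.Agent.Y592.RG.Norm
import Pool.Agent.Y65.RG.Apx

/-!
# Products of few ridge functions: sets of measure one half
-/

set_option autoImplicit false

namespace Pool.Agent.Y506.RG

open MeasureTheory Set Filter Topology
open scoped ENNReal InnerProductSpace
open Pool.Agent.W695.KH (Eu EU EV VV Sm Pot Uu)

/-- the functional inequality for products of few ridge functions -/
theorem star_all (q : ℕ) : ∃ c : ℝ, 0 < c ∧
      ∀ (n N : ℕ), 1 ≤ n → N ≤ n + q → ∀ (ell : Eu (Fin n) →ₗ[ℝ] Eu (Fin N)),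
      (∀ x, ell x = 0 → x = 0) → ∀ h : Fin N → ℝ → ℝ, (∀ i, LC1 (h i)) →
      Integrable (fun x => (1 + ‖x‖ ^ 2) * ∏ i, h i (ell x i)) →
      0 < ∫ x, ∏ i, h i (ell x i) → Star c fun x => ∏ i, h i (ell x i) :=
  star_lc Pool.Agent.Y210.RG.momr Pool.Agent.Z864.RG.ldk Pool.Agent.Y429.RG.spl2
    Pool.Agent.Y950.RG.expd Pool.Agent.Y950.RG.psi Pool.Agent.Y252.RG.logr
    Pool.Agent.Y445.RG.varr (Pool.Agent.Y487.RG.thr Pool.Agent.Y809.RG.jacr)
    Pool.Agent.Y901.RG.t1 Pool.Agent.Y401.RG.t2 Pool.Agent.Y849.RG.one1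
    Pool.Agent.Y287.RG.potr Pool.Agent.Y497.RG.tilt Pool.Agent.Y592.RG.norm1
    (Pool.Agent.Y65.RG.apx Pool.Agent.Y510.RG.limw Pool.Agent.Y333.RG.reg) q

/-- sets of measure one half -/
theorem half_all (q : ℕ) : ∃ c : ℝ, 0 < c ∧
    ∀ (n N : ℕ), 1 ≤ n → N ≤ n + q → ∀ (v : Fin N → Eu (Fin n)),
    (∀ x, (∀ i, ⟪v i, x⟫_ℝ = 0) → x = 0) → ∀ h : Fin N → ℝ → ℝ, (∀ i, LC1 (h i)) →
    Integrable (fun x : Eu (Fin n) => (1 + ‖x‖ ^ 2) * ∏ i, h i ⟪v i, x⟫_ℝ) →
    0 < ∫ x : Eu (Fin n), ∏ i, h i ⟪v i, x⟫_ℝ → Adm (fun x => ∏ i, h i ⟪v i, x⟫_ℝ) ∧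
    ∀ (k : ℕ) (T : Eu (Fin n) →ₗ[ℝ] Eu (Fin k)) (μ : Measure (Eu (Fin k))),
    μ = Measure.map T (pm fun x => ∏ i, h i ⟪v i, x⟫_ℝ) → IsProbabilityMeasure μ ∧
    ∀ s : ℝ, 0 < s →
    (∀ θ : Eu (Fin k), ‖θ‖ = 1 → ProbabilityTheory.variance (fun x => ⟪x, θ⟫_ℝ) μ ≤ s) →
    ∀ S : Set (Eu (Fin k)), μ S = 1 / 2 → ENNReal.ofReal (c / Real.sqrt s) ≤
      liminf (fun ε : ℝ => (μ (Metric.thickening ε S) - μ S) / ENNReal.ofReal ε) (𝓝[>] 0) := by
  obtain ⟨c, hc, H⟩ := star_all q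
  refine ⟨1 / (4 * c), by positivity, ?_⟩
  intro n N hn hN v hv h hh hint hpos
  let ell : Eu (Fin n) →ₗ[ℝ] Eu (Fin N) :=
    { toFun := fun x => WithLp.toLp 2 fun i => ⟪v i, x⟫_ℝ
      map_add' := fun x y => by ext; simp [inner_add_right]
      map_smul' := fun c x => by ext; simp [real_inner_smul_right] }
  have hell : ∀ x i, ell x i = ⟪v i, x⟫_ℝ := fun x i => rfl
  have hker : ∀ x, ell x = 0 → x = 0 := by
    intro x hx
    refine hv x fun i => ?_
    rw [← hell, hx]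
    rfl
  have hA : Adm (fun x : Eu (Fin n) => ∏ i, h i ⟪v i, x⟫_ℝ) := by
    refine ⟨fun x => Finset.prod_nonneg fun i _ => (hh i).nonneg _, hint, hpos, ?_⟩
    refine Finset.measurable_prod _ fun i _ => ?_
    have : Measurable fun x : Eu (Fin n) => ⟪v i, x⟫_ℝ := by fun_prop
    exact (hh i).meas.comp this
  have hst : Star c fun x : Eu (Fin n) => ∏ i, h i ⟪v i, x⟫_ℝ :=
    H n N hn hN ell hker h hh hint hpos
  refine ⟨hA, fun k T μ hμ => ?_⟩
  exact half_of_star Pool.Agent.Y429.RG.minkm hA c hc hst k T μ hμ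

/-- intersection of slabs -/
def slb {n N : ℕ} (v : Fin N → Eu (Fin n)) (I : Fin N → Set ℝ) : Set (Eu (Fin n)) :=
  {x | ∀ i, ⟪v i, x⟫_ℝ ∈ I i}

theorem slb_closed {n N : ℕ} (v : Fin N → Eu (Fin n)) (I : Fin N → Set ℝ)
    (hI : ∀ i, IsClosed (I i)) : IsClosed (slb v I) := by
  have h1 : slb v I = ⋂ i, (fun x : Eu (Fin n) => ⟪v i, x⟫_ℝ) ⁻¹' (I i) := by
    ext x
    simp [slb]
  rw [h1]
  refine isClosed_iInter fun i => (hI i).preimage ?_
  fun_prop

theorem slb_convex {n N : ℕ} (v : Fin N → Eu (Fin n)) (I : Fin N → Set ℝ)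
    (hI : ∀ i, (I i).OrdConnected) : Convex ℝ (slb v I) := by
  intro x hx y hy a b ha hb hab i
  have h1 : ⟪v i, a • x + b • y⟫_ℝ = a • ⟪v i, x⟫_ℝ + b • ⟪v i, y⟫_ℝ := by
    rw [inner_add_right, real_inner_smul_right, real_inner_smul_right, smul_eq_mul, smul_eq_mul]
  rw [h1]
  exact (hI i).convex (hx i) (hy i) ha hb hab

theorem ind_lc {I : Set ℝ} (hc : MeasurableSet I) (hI : I.OrdConnected) :
    LC1 (I.indicator fun _ => (1 : ℝ)) := by
  refine ⟨fun s => indicator_nonneg (fun _ _ => zero_le_one) s, measurable_const.indicator hc,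
    fun x y t h0 h1 => ?_⟩
  by_cases hx : x ∈ I
  · by_cases hy : y ∈ I
    · have h2 : (1 - t) * x + t * y ∈ I := by
        have := hI.convex hx hy (by linarith : 0 ≤ 1 - t) h0.le (by ring)
        simpa [smul_eq_mul] using this
      rw [indicator_of_mem hx, indicator_of_mem hy, indicator_of_mem h2, Real.one_rpow,
        Real.one_rpow, mul_one]
    · rw [indicator_of_notMem hy, Real.zero_rpow h0.ne', mul_zero]
      exact indicator_nonneg (fun _ _ => zero_le_one) _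
  · rw [indicator_of_notMem hx, Real.zero_rpow (by linarith : (1 - t) ≠ 0), zero_mul]
    exact indicator_nonneg (fun _ _ => zero_le_one) _

/-- sets of measure one half in intersections of few slabs, and their linear images -/
theorem slab_half (q : ℕ) : ∃ c : ℝ, 0 < c ∧
    ∀ (n N : ℕ), 1 ≤ n → N ≤ n + q → ∀ (v : Fin N → Eu (Fin n)) (I : Fin N → Set ℝ),
    (∀ i, IsClosed (I i)) → (∀ i, (I i).OrdConnected) → Bornology.IsBounded (slb v I) →
    (interior (slb v I)).Nonempty →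
    ∀ (k : ℕ) (T : Eu (Fin n) →ₗ[ℝ] Eu (Fin k)) (μ : Measure (Eu (Fin k))),
    μ = Measure.map T ((volume (slb v I))⁻¹ • volume.restrict (slb v I)) →
    ∀ s : ℝ, 0 < s →
    (∀ θ : Eu (Fin k), ‖θ‖ = 1 → ProbabilityTheory.variance (fun x => ⟪x, θ⟫_ℝ) μ ≤ s) →
    ∀ S : Set (Eu (Fin k)), μ S = 1 / 2 → ENNReal.ofReal (c / Real.sqrt s) ≤
      liminf (fun ε : ℝ => (μ (Metric.thickening ε S) - μ S) / ENNReal.ofReal ε) (𝓝[>] 0) := by
  obtain ⟨c, hc, H⟩ := half_all q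
  refine ⟨c, hc, ?_⟩
  intro n N hn hN v I hI1 hI2 hbd hint k T μ hμ
  have hcl := slb_closed v I hI1
  have hcp : IsCompact (slb v I) := Metric.isCompact_of_isClosed_isBounded hcl hbd
  have hvol : 0 < volume (slb v I) :=
    lt_of_lt_of_le (isOpen_interior.measure_pos volume hint) (measure_mono interior_subset)
  have hfin : volume (slb v I) ≠ ⊤ := hcp.measure_lt_top.ne
  have hw : ∀ x, ∏ i, (I i).indicator (fun _ => (1 : ℝ)) ⟪v i, x⟫_ℝ =
      (slb v I).indicator (fun _ => (1 : ℝ)) x := by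
    intro x
    by_cases hx : x ∈ slb v I
    · rw [indicator_of_mem hx]
      refine Finset.prod_eq_one fun i _ => ?_
      rw [indicator_of_mem (hx i)]
    · rw [indicator_of_notMem hx]
      unfold slb at hx
      rw [mem_ofPred_eq, not_forall] at hx
      obtain ⟨i, hi⟩ := hx
      refine Finset.prod_eq_zero (Finset.mem_univ i) ?_
      rw [indicator_of_notMem hi]
  have hker : ∀ x : Eu (Fin n), (∀ i, ⟪v i, x⟫_ℝ = 0) → x = 0 := by
    intro x hx1
    by_contra hne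
    obtain ⟨R, hR⟩ := hbd.exists_norm_le
    have hxn : 0 < ‖x‖ := norm_pos_iff.2 hne
    obtain ⟨x0, hx0'⟩ := hint
    have hx0 : x0 ∈ slb v I := interior_subset hx0'
    have h1 := hR (x0 + ((R + ‖x0‖ + 1) / ‖x‖) • x) (by
      intro i
      rw [inner_add_right, real_inner_smul_right, hx1, mul_zero, add_zero]
      exact hx0 i)
    have hR0 : 0 ≤ R := (norm_nonneg _).trans (hR x0 hx0)
    have h2 : ‖((R + ‖x0‖ + 1) / ‖x‖) • x‖ = R + ‖x0‖ + 1 := by
      rw [norm_smul, Real.norm_eq_abs, abs_of_nonneg (by positivity), div_mul_cancel₀ _ hxn.ne']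
    have h3 : ‖((R + ‖x0‖ + 1) / ‖x‖) • x‖ ≤ ‖x0 + ((R + ‖x0‖ + 1) / ‖x‖) • x‖ + ‖x0‖ := by
      have := norm_sub_le (x0 + ((R + ‖x0‖ + 1) / ‖x‖) • x) x0
      rwa [add_sub_cancel_left] at this
    linarith
  have hint1 : Integrable fun x : Eu (Fin n) =>
      (1 + ‖x‖ ^ 2) * (slb v I).indicator (fun _ => (1 : ℝ)) x := by
    have h1 : (fun x : Eu (Fin n) => (1 + ‖x‖ ^ 2) * (slb v I).indicator (fun _ => (1 : ℝ)) x) =
        (slb v I).indicator fun x => 1 + ‖x‖ ^ 2 := by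
      funext x
      by_cases hx : x ∈ slb v I
      · rw [indicator_of_mem hx, indicator_of_mem hx, mul_one]
      · rw [indicator_of_notMem hx, indicator_of_notMem hx, mul_zero]
    rw [h1, integrable_indicator_iff hcl.measurableSet]
    have : Continuous fun x : Eu (Fin n) => 1 + ‖x‖ ^ 2 := by fun_prop
    exact this.continuousOn.integrableOn_compact hcp
  have hpos : 0 < ∫ x, (slb v I).indicator (fun _ => (1 : ℝ)) x := by
    rw [integral_indicator hcl.measurableSet]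
    simp only [integral_const, smul_eq_mul, mul_one, Measure.real, Measure.restrict_apply_univ]
    exact ENNReal.toReal_pos hvol.ne' hfin
  obtain ⟨-, H2⟩ := H n N hn hN v hker (fun i => (I i).indicator fun _ => (1 : ℝ))
    (fun i => ind_lc (hI1 i).measurableSet (hI2 i)) (by simpa only [hw] using hint1)
    (by simpa only [hw] using hpos)
  refine (H2 k T μ ?_).2
  rw [hμ]
  congr 1
  unfold pm
  have h3 : ∀ x, ENNReal.ofReal (∏ i, (I i).indicator (fun _ => (1 : ℝ)) ⟪v i, x⟫_ℝ) =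
      (slb v I).indicator 1 x := by
    intro x
    rw [hw]
    by_cases hx : x ∈ slb v I
    · rw [indicator_of_mem hx, indicator_of_mem hx, ENNReal.ofReal_one]
      rfl
    · rw [indicator_of_notMem hx, indicator_of_notMem hx, ENNReal.ofReal_zero]
  simp only [h3]
  rw [lintegral_indicator_one hcl.measurableSet, withDensity_indicator_one hcl.measurableSet]

end Pool.Agent.Y506.RG
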