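import Pool.Agent.Y506.RG.All
import Pool.Agent.Y506.FF.Che
import Pool.Agent.Y211.FF.Half

/-!
# Intersections of few slabs: sets of measure one half against halfspaces
-/

set_option autoImplicit false

namespace Pool.Agent.Y506.RG

open MeasureTheory Set Filter Topology
open scoped ENNReal InnerProductSpace
open Pool.Agent.W695.KH (Eu EU EV VV Sm Pot Uu)
open Pool.Agent.Y506.FF (S_HALF ennreal_sup_aux)

theorem cheHalf (hH : S_HALF) (q : ℕ) : ∃ c : ℝ, 0 < c ∧
    ∀ (n N : ℕ), 1 ≤ n → N ≤ n + q → ∀ (v : Fin N → Eu (Fin n)) (I : Fin N → Set ℝ),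
    (∀ i, IsClosed (I i)) → (∀ i, (I i).OrdConnected) → Bornology.IsBounded (slb v I) →
    (interior (slb v I)).Nonempty →
    ∀ (μ : Measure (Eu (Fin n))),
    μ = (volume (slb v I))⁻¹ • volume.restrict (slb v I) → ∀ t : ℝ≥0∞,
    (∀ (a : Eu (Fin n)) (b : ℝ), a ≠ 0 → t * min (μ {x | ⟪a, x⟫_ℝ ≤ b}) (1 - μ {x | ⟪a, x⟫_ℝ ≤ b}) ≤
      liminf (fun ε : ℝ => (μ (Metric.thickening ε {x | ⟪a, x⟫_ℝ ≤ b}) -
        μ {x | ⟪a, x⟫_ℝ ≤ b}) / ENNReal.ofReal ε) (𝓝[>] 0)) →
    ∀ S : Set (Eu (Fin n)), MeasurableSet S → μ S = 1 / 2 → ENNReal.ofReal c * t ≤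
      liminf (fun ε : ℝ => (μ (Metric.thickening ε S) - μ S) / ENNReal.ofReal ε) (𝓝[>] 0) := by
  obtain ⟨c, hc, H⟩ := slab_half q
  obtain ⟨C, hC, HH⟩ := hH
  refine ⟨c / Real.sqrt C, by positivity, ?_⟩
  intro n N hn hN v I hI1 hI2 hbd hint μ hμ t ht S hS hS2
  obtain ⟨P, hP⟩ : ∃ P : Set (Eu (Fin n)), P = slb v I := ⟨_, rfl⟩
  have hcl : IsClosed P := by rw [hP]; exact slb_closed v I hI1
  have hcp : IsCompact P := Metric.isCompact_of_isClosed_isBounded hcl (by rw [hP]; exact hbd)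
  have hco : Convex ℝ P := by rw [hP]; exact slb_convex v I hI2
  rw [← hP] at hμ hint
  have hvol : 0 < volume P :=
    lt_of_lt_of_le (isOpen_interior.measure_pos volume hint) (measure_mono interior_subset)
  have hprob : IsProbabilityMeasure μ := by
    rw [hμ]; exact Pool.Agent.Y506.KS.unif_prob hvol hcp.measure_lt_top.ne
  refine ennreal_sup_aux _ _ _ fun r hr hrt => ?_
  have hvar : ∀ θ : Eu (Fin n), ‖θ‖ = 1 →
      ProbabilityTheory.variance (fun x => ⟪x, θ⟫_ℝ) μ ≤ C / r ^ 2 := by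
    intro θ hθ
    obtain ⟨m, hm⟩ := HH (Fin n) P hcp hco hint μ hμ θ t hθ fun b => ht θ b (by
      intro h0
      rw [h0, norm_zero] at hθ
      exact zero_ne_one hθ)
    have hint' : Integrable (fun x => (⟪θ, x⟫_ℝ - m) ^ 2) μ := by
      rw [hμ]
      refine Integrable.smul_measure ?_ (ENNReal.inv_ne_top.2 hvol.ne')
      have : Continuous fun x : Eu (Fin n) => (⟪θ, x⟫_ℝ - m) ^ 2 := by fun_prop
      exact this.continuousOn.integrableOn_compact hcp
    rw [← ofReal_integral_eq_lintegral_ofReal hint' (Eventually.of_forall fun x => sq_nonneg _)] at hm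
    obtain ⟨W, hW⟩ : ∃ W : ℝ, W = ∫ x, (⟪θ, x⟫_ℝ - m) ^ 2 ∂μ := ⟨_, rfl⟩
    rw [← hW] at hm
    have h1 : ENNReal.ofReal (r ^ 2 * W) ≤ ENNReal.ofReal C := by
      rw [ENNReal.ofReal_mul (by positivity), ENNReal.ofReal_pow hr.le]
      exact (mul_le_mul_left (pow_le_pow_left' hrt 2) _).trans hm
    have h2 : r ^ 2 * W ≤ C := (ENNReal.ofReal_le_ofReal_iff hC.le).1 h1
    have h3 : ProbabilityTheory.variance (fun x => ⟪x, θ⟫_ℝ) μ ≤ W := by
      have h4 : ProbabilityTheory.variance (fun x => ⟪x, θ⟫_ℝ - m) μ =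
          ProbabilityTheory.variance (fun x => ⟪x, θ⟫_ℝ) μ :=
        ProbabilityTheory.variance_sub_const (by fun_prop) m
      rw [← h4]
      refine (ProbabilityTheory.variance_le_expectation_sq (by fun_prop)).trans (le_of_eq ?_)
      rw [hW]
      refine integral_congr_ae (Eventually.of_forall fun x => ?_)
      simp only [Pi.pow_apply]
      rw [real_inner_comm]
    refine h3.trans ?_
    rw [le_div_iff₀ (by positivity)]
    linarith
  have key := H n N hn hN v I hI1 hI2 hbd (by rw [← hP]; exact hint) n LinearMap.id μ (by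
    rw [← hP, hμ]
    exact (Measure.map_id).symm) (C / r ^ 2) (by positivity) hvar S hS2
  refine le_trans (le_of_eq ?_) key
  rw [← ENNReal.ofReal_mul (by positivity), Real.sqrt_div hC.le, Real.sqrt_sq hr.le]
  congr 1
  field_simp

end Pool.Agent.Y506.RG
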