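import Pool.Agent.Y506.RG.Yint
import Pool.Agent.Y506.FF.Lc

/-!
# Lipschitz functions on the section are concentrated
-/

set_option autoImplicit false

namespace Pool.Agent.Y506.RG

open MeasureTheory Set Filter Topology
open scoped ENNReal InnerProductSpace
open Pool.Agent.W695.KH (Eu EU EV VV Sm Pot Uu)
open Pool.Agent.Y506.FF (Pair mat pw prj exists_coord coord_cont sum_pw pw_nonneg adj adj_apply
  adj_norm adj_le push lip_of)

theorem tm_of (h1 : S_T1) (h2 : S_T2) (C : ℝ) : ∃ l C' : ℝ, 0 < l ∧ 1 ≤ C' ∧ ∀ f : ℝ → ℝ, ND f →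
    OB C f → ∃ T p k : ℝ → ℝ → ℝ, TM f l C' T p k := by
  obtain ⟨l0, hl0, H1⟩ := h1 C
  obtain ⟨l, C', hl, hC', H2⟩ := h2 C l0 hl0
  refine ⟨l, C', hl, hC', fun f hf hb => ?_⟩
  obtain ⟨hi, T, hT⟩ := H1 f hf hb
  obtain ⟨p, k, h⟩ := H2 f hf hb hi T hT
  exact ⟨T, p, k, h⟩

variable {ι : Type} [Fintype ι] {n d : ℕ}

theorem rrL_meas (f : ι → ℝ → ℝ) (hf : ∀ i, Measurable (f i)) (L : Eu (Fin n) →ₗᵢ[ℝ] Eu ι) :
    Measurable fun x : Eu (Fin n) => rr f (L x) := by
  have := sec_meas f hf L 0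
  simpa only [add_zero] using this

/-- the measure of the bad set -/
theorem badR (hMOM : S_MOMR) (hLDK : S_LDK) (hS : S_SPL2) (hE : S_EXPD) (hPSI : S_PSI)
    (hLOG : S_LOGR) (hV : S_VARR) (hTH : S_THR) (hT1 : S_T1) (hT2 : S_T2) (C : ℝ) (hC : 1 ≤ C)
    (d : ℕ) : ∃ l : ℝ, 0 < l ∧ ∀ (ι : Type) [Fintype ι] (n : ℕ) (f : ι → ℝ → ℝ), PD C f →
      ∀ (L : Eu (Fin (n + 1)) →ₗᵢ[ℝ] Eu ι)
      (M : Eu (Fin d) →ₗᵢ[ℝ] Eu ι), Pair L M →
      ∀ v : Eu (Fin (n + 1)) → ℝ, ContDiff ℝ 1 v → (∀ x, |v x| ≤ 1) →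
      (∀ x, ‖fderiv ℝ v x‖ ≤ l) → ∃ m : ℝ, |m| ≤ 1 ∧
        ∫⁻ x in {x | 1 / 10 ≤ |v x - m|}, rr f (L x) ≤ gR f L M 0 * ENNReal.ofReal (1 / 400) := by
  obtain ⟨C1, hC1, H1⟩ := sec1R hMOM hLDK hS hE hPSI C hC d
  have hC10 : 0 < C1 := by linarith
  obtain ⟨CY, hCY, H2⟩ := Yr_int hMOM hLDK hS hE hPSI hLOG C hC d
  obtain ⟨l1, C', hl1, hC', H5⟩ := tm_of hT1 hT2 C
  obtain ⟨a, K1, ha, hK1, H3⟩ := hTH d l1 C' hl1 hC'
  obtain ⟨Kv, hKv, H4⟩ := hV C
  obtain ⟨K, hK⟩ : ∃ K : ℝ, K = 400 * Kv + 1600 * K1 * d := ⟨_, rfl⟩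
  have hK0 : 0 < K := by rw [hK]; positivity
  obtain ⟨T, hT⟩ : ∃ T : ℝ, T = 800 * CY := ⟨_, rfl⟩
  have hT0 : 0 < T := by rw [hT]; positivity
  obtain ⟨l, hl⟩ : ∃ l : ℝ, l = Real.sqrt (a / (800 * K * C1 * Real.exp T)) := ⟨_, rfl⟩
  have hl0 : 0 < l := by rw [hl]; exact Real.sqrt_pos.2 (by positivity)
  have hl2 : l ^ 2 = a / (800 * K * C1 * Real.exp T) := by
    rw [hl, Real.sq_sqrt (by positivity)]
  refine ⟨l, hl0, fun ι _ n w hw L M hP v hv hv1 hvl => ?_⟩
  obtain ⟨v1, v2, -⟩ := H1 ι n w hw L M hP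
  have y1 := H2 ι n w hw L M hP
  obtain ⟨KM, hKM, HM⟩ := hMOM C
  obtain ⟨-, -, -, -, hsq⟩ := HM ι w hw.nd hw.ob
  have hwm := hw.meas
  have hwL := rrL_meas w hwm L
  have hwr := rr_meas w hwm
  obtain ⟨m0, hm0⟩ : ∃ m0 : ℝ≥0∞, m0 = gR w L M 0 := ⟨_, rfl⟩
  rw [← hm0] at v1 v2 y1 ⊢
  -- the pushed function
  obtain ⟨f, hf⟩ : ∃ f : Eu ι → ℝ, f = fun s => v (adj L s - 0) := ⟨_, rfl⟩
  obtain ⟨hfc, hfl⟩ := push (adj L) (adj_norm L) 0 v hv l hl0.le hvl
  rw [← hf] at hfc hfl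
  have hf1 : ∀ s, |f s| ≤ 1 := fun s => by rw [hf]; exact hv1 _
  obtain ⟨m, hm, hvar⟩ := H4 ι w hw.nd hw.ob f l hfc hf1 hl0.le hfl
  refine ⟨m, hm, ?_⟩
  -- sets
  obtain ⟨B, hB⟩ : ∃ B : Set (Eu (Fin (n + 1))), B = {x | 1 / 10 ≤ |v x - m|} := ⟨_, rfl⟩
  rw [← hB]
  have hBm : MeasurableSet B := by
    rw [hB]
    exact (isClosed_le continuous_const ((hv.continuous.sub continuous_const).abs)).measurableSet
  obtain ⟨Q, hQ⟩ : ∃ Q : Eu ι → ℝ, Q = fun s => ∑ i, pw M i * (1 + |s i|) ^ 2 := ⟨_, rfl⟩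
  have hQc : Continuous Q := by rw [hQ]; fun_prop
  have hQ0 : ∀ s, 0 ≤ Q s := fun s => by
    rw [hQ]
    exact Finset.sum_nonneg fun i _ => mul_nonneg (pw_nonneg M i) (sq_nonneg _)
  obtain ⟨S, hSd⟩ : ∃ S : Set (Eu ι), S = {s | 1 ≤ 400 * (f s - m) ^ 2 + 400 * l ^ 2 * K1 * Q s} :=
    ⟨_, rfl⟩
  have hfcont := hfc.continuous
  have hSm : MeasurableSet S := by
    rw [hSd]
    exact (isClosed_le continuous_const (by fun_prop)).measurableSet
  have hBS : ∀ s : Eu ι,
      (∃ x ∈ B, ‖s - L x‖ ^ 2 ≤ K1 * ∑ i, pw M i * (1 + |s i|) ^ 2) → s ∈ S := by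
    rintro s ⟨x, hx, hsx⟩
    have hsx' : ‖s - L x‖ ^ 2 ≤ K1 * Q s := by rw [hQ]; exact hsx
    rw [hSd, mem_ofPred_eq]
    by_contra hn
    rw [not_le] at hn
    have h0 : 0 ≤ l ^ 2 * K1 * Q s := mul_nonneg (by positivity) (hQ0 s)
    have h1 : 400 * (f s - m) ^ 2 < 1 := by linarith
    have h2 : 400 * l ^ 2 * K1 * Q s < 1 := by
      have := sq_nonneg (f s - m)
      linarith
    have h3 : |f s - m| < 1 / 20 := by
      rw [← sq_lt_sq₀ (abs_nonneg _) (by norm_num), sq_abs]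
      linarith
    have h4 : |f s - v x| ≤ l * ‖s - L x‖ := by
      have h5 : |v (adj L s - 0) - v x| ≤ l * ‖(adj L s - 0) - x‖ :=
        lip_of v hv l hvl x _
      have h6 : (adj L s - 0) - x = adj L (s - L x) := by
        rw [map_sub, adj_apply, sub_zero]
      rw [h6] at h5
      rw [hf]
      exact h5.trans (mul_le_mul_of_nonneg_left (adj_le L _) hl0.le)
    have h7 : l * ‖s - L x‖ < 1 / 20 := by
      rw [← sq_lt_sq₀ (by positivity) (by norm_num), mul_pow]
      have : l ^ 2 * ‖s - L x‖ ^ 2 ≤ l ^ 2 * (K1 * Q s) :=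
        mul_le_mul_of_nonneg_left hsx' (sq_nonneg l)
      linarith
    have h8 : 1 / 10 ≤ |v x - m| := by
      rw [hB] at hx
      exact hx
    have h9 : |v x - m| ≤ |f s - v x| + |f s - m| := by
      have h10 : v x - m = -(f s - v x) + (f s - m) := by ring
      rw [h10]
      refine (abs_add_le _ _).trans ?_
      rw [abs_neg]
    linarith
  have hth := H3 ι (n + 1) w hw.nd (fun i => H5 (w i) (hw.nd i) (hw.ob i)) L M hP B hBm S hSm hBS
  -- upper bound of the right side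
  have hup : ∫⁻ s in S, rr w s ≤ ENNReal.ofReal (K * l ^ 2) := by
    have h1 : ∫⁻ s in S, rr w s ≤ ∫⁻ s, (400 * (ENNReal.ofReal ((f s - m) ^ 2) * rr w s) +
        ∑ i, ENNReal.ofReal (400 * l ^ 2 * K1 * pw M i) *
          (ENNReal.ofReal ((1 + |s i|) ^ 2) * rr w s)) := by
      rw [← lintegral_indicator hSm]
      refine lintegral_mono fun s => ?_
      by_cases hs : s ∈ S
      · rw [indicator_of_mem hs]
        rw [hSd, mem_ofPred_eq] at hs
        have h2 : (1 : ℝ≥0∞) ≤ 400 * ENNReal.ofReal ((f s - m) ^ 2) +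
            ∑ i, ENNReal.ofReal (400 * l ^ 2 * K1 * pw M i) * ENNReal.ofReal ((1 + |s i|) ^ 2) := by
          have h3 : ∑ i, ENNReal.ofReal (400 * l ^ 2 * K1 * pw M i) *
              ENNReal.ofReal ((1 + |s i|) ^ 2) = ENNReal.ofReal (400 * l ^ 2 * K1 * Q s) := by
            rw [hQ, Finset.mul_sum, ENNReal.ofReal_sum_of_nonneg fun i _ =>
              mul_nonneg (by positivity) (mul_nonneg (pw_nonneg M i) (sq_nonneg _))]
            refine Finset.sum_congr rfl fun i _ => ?_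
            rw [← ENNReal.ofReal_mul (mul_nonneg (by positivity) (pw_nonneg M i))]
            congr 1
            ring
          rw [h3, show (400 : ℝ≥0∞) = ENNReal.ofReal 400 by norm_num,
            ← ENNReal.ofReal_mul (by norm_num), ← ENNReal.ofReal_add (by positivity)
            (mul_nonneg (by positivity) (hQ0 s)), ← ENNReal.ofReal_one]
          exact ENNReal.ofReal_le_ofReal hs
        calc rr w s = 1 * rr w s := (one_mul _).symm
          _ ≤ (400 * ENNReal.ofReal ((f s - m) ^ 2) +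
            ∑ i, ENNReal.ofReal (400 * l ^ 2 * K1 * pw M i) *
              ENNReal.ofReal ((1 + |s i|) ^ 2)) * rr w s :=
              mul_le_mul_left h2 _
          _ = _ := by
              rw [add_mul, Finset.sum_mul]
              congr 1
              · ring
              · exact Finset.sum_congr rfl fun i _ => by ring
      · rw [indicator_of_notMem hs]
        exact zero_le
    have hm1 : Measurable fun s : Eu ι => ENNReal.ofReal ((f s - m) ^ 2) * rr w s := by
      have : Measurable fun s : Eu ι => ENNReal.ofReal ((f s - m) ^ 2) := by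
        have := hfcont.measurable
        fun_prop
      exact this.mul hwr
    have hm2 : ∀ i, Measurable fun s : Eu ι => ENNReal.ofReal ((1 + |s i|) ^ 2) * rr w s := by
      intro i
      have : Measurable fun s : Eu ι => ENNReal.ofReal ((1 + |s i|) ^ 2) := by fun_prop
      exact this.mul hwr
    have hm1' : Measurable fun s : Eu ι => 400 * (ENNReal.ofReal ((f s - m) ^ 2) * rr w s) :=
      measurable_const.mul hm1
    have hm2' : ∀ i ∈ Finset.univ, Measurable fun s : Eu ι =>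
        ENNReal.ofReal (400 * l ^ 2 * K1 * pw M i) *
          (ENNReal.ofReal ((1 + |s i|) ^ 2) * rr w s) :=
      fun i _ => measurable_const.mul (hm2 i)
    rw [lintegral_add_left hm1', lintegral_const_mul _ hm1, lintegral_finsetSum _ hm2'] at h1
    refine h1.trans ?_
    have h4 : ∑ i, ∫⁻ s : Eu ι, ENNReal.ofReal (400 * l ^ 2 * K1 * pw M i) *
        (ENNReal.ofReal ((1 + |s i|) ^ 2) * rr w s) ≤ ENNReal.ofReal (1600 * K1 * d * l ^ 2) := by
      have h5 : ∀ i, ∫⁻ s : Eu ι, ENNReal.ofReal (400 * l ^ 2 * K1 * pw M i) *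
          (ENNReal.ofReal ((1 + |s i|) ^ 2) * rr w s) ≤
          ENNReal.ofReal (1600 * l ^ 2 * K1 * pw M i) := by
        intro i
        rw [lintegral_const_mul _ (hm2 i)]
        refine (mul_le_mul_right (hsq i) _).trans (le_of_eq ?_)
        rw [show (4 : ℝ≥0∞) = ENNReal.ofReal 4 by norm_num,
          ← ENNReal.ofReal_mul (mul_nonneg (by positivity) (pw_nonneg M i))]
        congr 1
        ring
      refine (Finset.sum_le_sum fun i _ => h5 i).trans (le_of_eq ?_)
      rw [← ENNReal.ofReal_sum_of_nonneg fun i _ => mul_nonneg (by positivity) (pw_nonneg M i),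
        ← Finset.mul_sum, sum_pw]
      congr 1
      ring
    calc 400 * (∫⁻ s, ENNReal.ofReal ((f s - m) ^ 2) * rr w s) + _
        ≤ ENNReal.ofReal 400 * ENNReal.ofReal (Kv * l ^ 2) +
          ENNReal.ofReal (1600 * K1 * d * l ^ 2) := by
          refine add_le_add ?_ h4
          rw [show (400 : ℝ≥0∞) = ENNReal.ofReal 400 by norm_num]
          exact mul_le_mul_right hvar _
      _ = ENNReal.ofReal (K * l ^ 2) := by
          rw [← ENNReal.ofReal_mul (by norm_num), ← ENNReal.ofReal_add (by positivity)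
            (by positivity), hK]
          congr 1
          ring
  have hYm := Yr_meas w hw.nd L M
  -- the part where the weight is not small
  have hpart : ∫⁻ x in B ∩ {x | Yr w L M x < T}, rr w (L x) ≤ m0 * ENNReal.ofReal (1 / 800) := by
    have hms : MeasurableSet {x | Yr w L M x < T} := measurableSet_lt hYm measurable_const
    have h1 : ENNReal.ofReal (Real.exp (-T)) * ∫⁻ x in B ∩ {x | Yr w L M x < T}, rr w (L x) ≤
        ∫⁻ x in B, ENNReal.ofReal (Real.exp (-Yr w L M x)) * rr w (L x) := by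
      rw [← lintegral_const_mul _ hwL, ← lintegral_indicator (hBm.inter hms),
        ← lintegral_indicator hBm]
      refine lintegral_mono fun x => ?_
      by_cases hx : x ∈ B ∩ {x | Yr w L M x < T}
      · rw [indicator_of_mem hx, indicator_of_mem hx.1]
        refine mul_le_mul_left (ENNReal.ofReal_le_ofReal (Real.exp_le_exp.2 ?_)) _
        have := hx.2
        rw [mem_ofPred_eq] at this
        linarith
      · rw [indicator_of_notMem hx]
        exact zero_le
    have h2 : ENNReal.ofReal a * (ENNReal.ofReal (Real.exp (-T)) *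
        ∫⁻ x in B ∩ {x | Yr w L M x < T}, rr w (L x)) ≤ ENNReal.ofReal (K * l ^ 2) :=
      (mul_le_mul_right h1 _).trans (hth.trans hup)
    have h3 : ENNReal.ofReal (K * l ^ 2) ≤ ENNReal.ofReal (K * l ^ 2 * C1) * m0 := by
      calc ENNReal.ofReal (K * l ^ 2) = ENNReal.ofReal (K * l ^ 2 * C1) *
            ENNReal.ofReal (1 / C1) := by
            rw [← ENNReal.ofReal_mul (by positivity)]
            congr 1
            field_simp
        _ ≤ _ := mul_le_mul_right v1 _
    have h4 : ENNReal.ofReal (a * Real.exp (-T)) * (∫⁻ x in B ∩ {x | Yr w L M x < T}, rr w (L x)) ≤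
        ENNReal.ofReal (a * Real.exp (-T)) * (m0 * ENNReal.ofReal (1 / 800)) := by
      calc ENNReal.ofReal (a * Real.exp (-T)) * (∫⁻ x in B ∩ {x | Yr w L M x < T}, rr w (L x))
          = ENNReal.ofReal a * (ENNReal.ofReal (Real.exp (-T)) *
            ∫⁻ x in B ∩ {x | Yr w L M x < T}, rr w (L x)) := by
            rw [ENNReal.ofReal_mul ha.le, mul_assoc]
        _ ≤ ENNReal.ofReal (K * l ^ 2 * C1) * m0 := h2.trans h3
        _ = ENNReal.ofReal (a * Real.exp (-T) * (1 / 800)) * m0 := by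
            congr 2
            rw [hl2, Real.exp_neg]
            have := (Real.exp_pos T).ne'
            field_simp
        _ = _ := by
            rw [ENNReal.ofReal_mul (p := a * Real.exp (-T)) (by positivity)]
            ring
    have hne : ENNReal.ofReal (a * Real.exp (-T)) ≠ 0 := by
      rw [Ne, ENNReal.ofReal_eq_zero, not_le]
      positivity
    exact (ENNReal.mul_le_mul_iff_right hne ENNReal.ofReal_ne_top).1 h4
  have hpart2 : ∫⁻ x in {x | T ≤ Yr w L M x}, rr w (L x) ≤ m0 * ENNReal.ofReal (1 / 800) := by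
    have hms : MeasurableSet {x | T ≤ Yr w L M x} := measurableSet_le measurable_const hYm
    have h1 : ENNReal.ofReal T * (∫⁻ x in {x | T ≤ Yr w L M x}, rr w (L x)) ≤
        ∫⁻ x, ENNReal.ofReal (Yr w L M x) * rr w (L x) := by
      rw [← lintegral_const_mul _ hwL, ← lintegral_indicator hms]
      refine lintegral_mono fun x => ?_
      by_cases hx : x ∈ {x | T ≤ Yr w L M x}
      · rw [indicator_of_mem hx]
        exact mul_le_mul_left (ENNReal.ofReal_le_ofReal hx) _
      · rw [indicator_of_notMem hx]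
        exact zero_le
    have h2 : ENNReal.ofReal T * (∫⁻ x in {x | T ≤ Yr w L M x}, rr w (L x)) ≤
        ENNReal.ofReal T * (m0 * ENNReal.ofReal (1 / 800)) := by
      refine (h1.trans y1).trans (le_of_eq ?_)
      have e : CY = T * (1 / 800) := by rw [hT]; ring
      rw [e, ENNReal.ofReal_mul hT0.le]
      ring
    have hne : ENNReal.ofReal T ≠ 0 := by
      rw [Ne, ENNReal.ofReal_eq_zero, not_le]
      exact hT0
    exact (ENNReal.mul_le_mul_iff_right hne ENNReal.ofReal_ne_top).1 h2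
  have hcov : B ⊆ (B ∩ {x | Yr w L M x < T}) ∪ {x | T ≤ Yr w L M x} := by
    intro x hx1
    rcases lt_or_ge (Yr w L M x) T with h2 | h2
    · exact Or.inl ⟨hx1, h2⟩
    · exact Or.inr h2
  calc ∫⁻ x in B, rr w (L x)
      ≤ ∫⁻ x in (B ∩ {x | Yr w L M x < T}) ∪ {x | T ≤ Yr w L M x}, rr w (L x) :=
        lintegral_mono_set hcov
    _ ≤ (∫⁻ x in B ∩ {x | Yr w L M x < T}, rr w (L x)) +
        ∫⁻ x in {x | T ≤ Yr w L M x}, rr w (L x) := lintegral_union_le _ _ _
    _ ≤ m0 * ENNReal.ofReal (1 / 800) + m0 * ENNReal.ofReal (1 / 800) :=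
        add_le_add hpart hpart2
    _ = m0 * ENNReal.ofReal (1 / 400) := by
        rw [← mul_add, ← ENNReal.ofReal_add (by norm_num) (by norm_num)]
        norm_num

end Pool.Agent.Y506.RG
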