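import Pool.Agent.Y506.RG.Lc
import Pool.Agent.Y506.FF.Fin1

/-!
# Weights: means and variances
-/

set_option autoImplicit false

namespace Pool.Agent.Y506.RG

open MeasureTheory Set Filter Topology
open scoped ENNReal InnerProductSpace
open Pool.Agent.W695.KH (Eu EU EV VV Sm Pot Uu)
open Pool.Agent.Y506.FF (Pair mat pw prj exists_coord coord_cont sum_pw pw_nonneg adj adj_apply
  adj_norm adj_le push lip_of)

variable {n : ℕ}

/-- admissible weights -/
structure Adm (w : Eu (Fin n) → ℝ) : Prop where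
  nonneg : ∀ x, 0 ≤ w x
  int : Integrable fun x => (1 + ‖x‖ ^ 2) * w x
  pos : 0 < ∫ x, w x
  meas : Measurable w

theorem Adm.of_bd {w : Eu (Fin n) → ℝ} (h : Adm w) (v : Eu (Fin n) → ℝ) (hv : Measurable v)
    (B : ℝ) (hb : ∀ x, |v x| ≤ B * (1 + ‖x‖ ^ 2)) : Integrable fun x => v x * w x := by
  refine Integrable.mono' (h.int.const_mul B) (hv.mul h.meas).aestronglyMeasurable
    (Eventually.of_forall fun x => ?_)
  rw [Real.norm_eq_abs, abs_mul, abs_of_nonneg (h.nonneg x)]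
  calc |v x| * w x ≤ B * (1 + ‖x‖ ^ 2) * w x := mul_le_mul_of_nonneg_right (hb x) (h.nonneg x)
    _ = _ := by ring

theorem Adm.bdd {w : Eu (Fin n) → ℝ} (h : Adm w) (v : Eu (Fin n) → ℝ) (hv : Measurable v)
    (B : ℝ) (hb : ∀ x, |v x| ≤ B) : Integrable fun x => v x * w x := by
  refine h.of_bd v hv B fun x => (hb x).trans ?_
  have hB : 0 ≤ B := (abs_nonneg _).trans (hb x)
  nlinarith [sq_nonneg ‖x‖]

theorem Adm.one {w : Eu (Fin n) → ℝ} (h : Adm w) : Integrable w := by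
  have := h.bdd (fun _ => 1) measurable_const 1 (fun x => by simp)
  simpa using this

theorem EW_nonneg {w : Eu (Fin n) → ℝ} (h : Adm w) (v : Eu (Fin n) → ℝ) (hv : ∀ x, 0 ≤ v x) :
    0 ≤ EW w v :=
  div_nonneg (integral_nonneg fun x => mul_nonneg (hv x) (h.nonneg x)) h.pos.le

theorem EW_mono {w : Eu (Fin n) → ℝ} (h : Adm w) (u v : Eu (Fin n) → ℝ)
    (hu : Integrable fun x => u x * w x) (hv : Integrable fun x => v x * w x)
    (huv : ∀ x, u x ≤ v x) : EW w u ≤ EW w v := by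
  unfold EW
  refine div_le_div_of_nonneg_right ?_ h.pos.le
  exact integral_mono hu hv fun x => mul_le_mul_of_nonneg_right (huv x) (h.nonneg x)

theorem EW_const_mul (w v : Eu (Fin n) → ℝ) (c : ℝ) : EW w (fun x => c * v x) = c * EW w v := by
  unfold EW
  have h1 : ∀ x, c * v x * w x = c * (v x * w x) := fun x => by ring
  simp only [h1]
  rw [integral_const_mul, mul_div_assoc]

theorem EW_add {w : Eu (Fin n) → ℝ} (u v : Eu (Fin n) → ℝ)
    (hu : Integrable fun x => u x * w x) (hv : Integrable fun x => v x * w x) :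
    EW w (fun x => u x + v x) = EW w u + EW w v := by
  unfold EW
  have h1 : ∀ x, (u x + v x) * w x = u x * w x + v x * w x := fun x => by ring
  simp only [h1]
  rw [integral_add hu hv, add_div]

theorem EW_const {w : Eu (Fin n) → ℝ} (h : Adm w) (c : ℝ) : EW w (fun _ => c) = c := by
  unfold EW
  rw [integral_const_mul, mul_div_assoc, div_self h.pos.ne', mul_one]

/-- second moment about a point -/
theorem VW_shift {w : Eu (Fin n) → ℝ} (h : Adm w) (v : Eu (Fin n) → ℝ)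
    (h1 : Integrable fun x => v x * w x) (h2 : Integrable fun x => v x ^ 2 * w x) (a : ℝ) :
    EW w (fun x => (v x - a) ^ 2) = VW w v + (EW w v - a) ^ 2 := by
  have e1 : (fun x => (v x - a) ^ 2) = fun x => v x ^ 2 + (-(2 * a) * v x + a ^ 2) := by
    funext x
    ring
  have i1 : Integrable fun x => -(2 * a) * v x * w x := by
    have := h1.const_mul (-(2 * a))
    refine this.congr (Eventually.of_forall fun x => ?_)
    simp only
    ring
  have i2 : Integrable fun x => a ^ 2 * w x := h.one.const_mul _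
  have i3 : Integrable fun x => (-(2 * a) * v x + a ^ 2) * w x := by
    refine (i1.add i2).congr (Eventually.of_forall fun x => ?_)
    simp only [Pi.add_apply]
    ring
  rw [e1, EW_add _ _ h2 i3, EW_add _ _ i1 i2, EW_const_mul, EW_const h]
  unfold VW
  ring

theorem VW_add_const {w : Eu (Fin n) → ℝ} (h : Adm w) (v : Eu (Fin n) → ℝ)
    (h1 : Integrable fun x => v x * w x) (h2 : Integrable fun x => v x ^ 2 * w x) (a : ℝ) :
    VW w (fun x => v x + a) = VW w v := by
  have e1 : (fun x => (v x + a) ^ 2) = fun x => (v x - -a) ^ 2 := by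
    funext x
    ring
  have i2 : Integrable fun x => a * w x := h.one.const_mul _
  have e2 : VW w (fun x => v x + a) = EW w (fun x => (v x - -a) ^ 2) - (EW w v + a) ^ 2 := by
    unfold VW
    simp only
    rw [e1, EW_add _ _ h1 i2, EW_const h]
  rw [e2, VW_shift h v h1 h2]
  ring

/-- the weight of a section -/
noncomputable def w0 {ι : Type} [Fintype ι] (f : ι → ℝ → ℝ) (L : Eu (Fin n) →ₗᵢ[ℝ] Eu ι)
    (x : Eu (Fin n)) : ℝ := ∏ i, f i (L x i)

theorem w0_ofReal {ι : Type} [Fintype ι] (f : ι → ℝ → ℝ) (hf : ∀ i s, 0 ≤ f i s)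
    (L : Eu (Fin n) →ₗᵢ[ℝ] Eu ι) (x : Eu (Fin n)) :
    ENNReal.ofReal (w0 f L x) = rr f (L x) := by
  unfold w0 rr
  rw [ENNReal.ofReal_prod_of_nonneg fun i _ => hf i _]

theorem w0_meas {ι : Type} [Fintype ι] (f : ι → ℝ → ℝ) (hf : ∀ i, Measurable (f i))
    (L : Eu (Fin n) →ₗᵢ[ℝ] Eu ι) : Measurable (w0 f L) := by
  unfold w0
  refine Finset.measurable_prod _ fun i _ => ?_
  exact (hf i).comp (coord_cont L i).measurable

/-- integrals of nonnegative functions with the weight of a section -/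
theorem w0_lint {ι : Type} [Fintype ι] (f : ι → ℝ → ℝ) (hf : ∀ i s, 0 ≤ f i s)
    (L : Eu (Fin n) →ₗᵢ[ℝ] Eu ι) (v : Eu (Fin n) → ℝ) (hv : ∀ x, 0 ≤ v x) :
    ∫⁻ x, ENNReal.ofReal (v x * w0 f L x) = ∫⁻ x, ENNReal.ofReal (v x) * rr f (L x) := by
  refine lintegral_congr fun x => ?_
  rw [ENNReal.ofReal_mul (hv x), w0_ofReal f hf]

theorem norm_sq_sum (x : Eu (Fin n)) :
    ‖x‖ ^ 2 = ∑ j, ⟪EuclideanSpace.single j (1 : ℝ), x⟫_ℝ ^ 2 := by
  rw [EuclideanSpace.norm_sq_eq]
  refine Finset.sum_congr rfl fun j _ => ?_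
  rw [EuclideanSpace.inner_single_left, Real.norm_eq_abs, sq_abs]
  simp

/-- data of the weight of a section -/
theorem admS {ι : Type} [Fintype ι] {d : ℕ} {C C1 : ℝ} (f : ι → ℝ → ℝ) (hf : PD C f)
    (L : Eu (Fin (n + 1)) →ₗᵢ[ℝ] Eu ι) (M : Eu (Fin d) →ₗᵢ[ℝ] Eu ι) (hC1 : 1 ≤ C1)
    (h1 : ENNReal.ofReal (1 / C1) ≤ gR f L M 0) (h2 : gR f L M 0 ≤ ENNReal.ofReal C1)
    (h3 : ∀ θ : Eu (Fin (n + 1)), ‖θ‖ = 1 → ∃ P : ℝ → ℝ≥0∞, S1 C1 f L M θ P) :
    Adm (w0 f L) ∧ ENNReal.ofReal (∫ x, w0 f L x) = gR f L M 0 := by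
  have hC10 : 0 < C1 := by linarith
  have hf0 : ∀ i s, 0 ≤ f i s := fun i s => ((hf.nd i).pos s).le
  have hw0 : ∀ x, 0 ≤ w0 f L x := fun x => Finset.prod_nonneg fun i _ => hf0 i _
  have hwm := w0_meas f hf.meas L
  have hrm := rrL_meas f hf.meas L
  have hmass : ∫⁻ x, ENNReal.ofReal (w0 f L x) = gR f L M 0 := by
    rw [gR_zero]
    exact lintegral_congr fun x => w0_ofReal f hf0 L x
  have hfin : gR f L M 0 < ⊤ := lt_of_le_of_lt h2 ENNReal.ofReal_lt_top
  have hint : Integrable fun x => (1 + ‖x‖ ^ 2) * w0 f L x := by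
    refine ⟨((measurable_const.add (measurable_norm.pow_const 2)).mul hwm).aestronglyMeasurable,
      ?_⟩
    rw [hasFiniteIntegral_iff_ofReal (Eventually.of_forall fun x =>
      mul_nonneg (by positivity) (hw0 x)), w0_lint f hf0 L _ fun x => by positivity]
    have hm2 : ∀ j ∈ Finset.univ, Measurable fun x : Eu (Fin (n + 1)) =>
        ENNReal.ofReal (⟪EuclideanSpace.single j (1 : ℝ), x⟫_ℝ ^ 2) * rr f (L x) := by
      intro j _
      have : Measurable fun x : Eu (Fin (n + 1)) =>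
        ENNReal.ofReal (⟪EuclideanSpace.single j (1 : ℝ), x⟫_ℝ ^ 2) := by fun_prop
      exact this.mul hrm
    have e1 : ∀ x, ENNReal.ofReal (1 + ‖x‖ ^ 2) * rr f (L x) = rr f (L x) +
        ∑ j, ENNReal.ofReal (⟪EuclideanSpace.single j (1 : ℝ), x⟫_ℝ ^ 2) * rr f (L x) := by
      intro x
      rw [ENNReal.ofReal_add zero_le_one (by positivity), ENNReal.ofReal_one, add_mul, one_mul,
        norm_sq_sum, ENNReal.ofReal_sum_of_nonneg fun j _ => sq_nonneg _, Finset.sum_mul]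
    simp only [e1]
    rw [lintegral_add_left hrm, lintegral_finsetSum _ hm2, ← gR_zero f L M]
    refine ENNReal.add_lt_top.2 ⟨hfin, ENNReal.sum_lt_top.2 fun j _ => ?_⟩
    obtain ⟨P, hP⟩ := h3 (EuclideanSpace.single j (1 : ℝ)) (by simp)
    have h5 := hP.int (fun u => ENNReal.ofReal (u ^ 2)) (by fun_prop)
    rw [h5]
    exact ENNReal.mul_lt_top hfin (lt_of_le_of_lt hP.sec ENNReal.ofReal_lt_top)
  have hint1 : Integrable (w0 f L) := by
    refine Integrable.mono' hint hwm.aestronglyMeasurable (Eventually.of_forall fun x => ?_)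
    rw [Real.norm_eq_abs, abs_of_nonneg (hw0 x)]
    nlinarith [hw0 x, sq_nonneg ‖x‖, mul_nonneg (sq_nonneg ‖x‖) (hw0 x)]
  have he : ENNReal.ofReal (∫ x, w0 f L x) = gR f L M 0 := by
    rw [ofReal_integral_eq_lintegral_ofReal hint1 (Eventually.of_forall hw0), hmass]
  refine ⟨⟨hw0, hint, ?_, hwm⟩, he⟩
  by_contra hn
  rw [not_lt] at hn
  rw [← he, ENNReal.ofReal_of_nonpos hn, nonpos_iff_eq_zero, ENNReal.ofReal_eq_zero] at h1
  have : 0 < 1 / C1 := by positivity
  linarith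

end Pool.Agent.Y506.RG
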